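import Pool.Agent.H74.TSD.Targets

/-! Adding a segment to a planar convex body. -/

set_option autoImplicit false

open MeasureTheory Set Metric Filter
open scoped ENNReal Pointwise Topology

namespace Pool.Agent.H16.TSD

open Pool.Agent.H74.TSD Pool.Agent.H73.TS

/-- the linear map given by four coefficients -/
def lm (a b c e : ℝ) : (ℝ × ℝ) →ₗ[ℝ] (ℝ × ℝ) where
  toFun x := (a * x.1 + b * x.2, c * x.1 + e * x.2)
  map_add' x y := by
    ext
    · simp only [Prod.fst_add, Prod.snd_add]
      ring
    · simp only [Prod.fst_add, Prod.snd_add]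
      ring
  map_smul' r x := by
    ext
    · simp only [Prod.smul_fst, Prod.smul_snd, smul_eq_mul, RingHom.id_apply]
      ring
    · simp only [Prod.smul_fst, Prod.smul_snd, smul_eq_mul, RingHom.id_apply]
      ring

theorem lm_apply (a b c e : ℝ) (x : ℝ × ℝ) :
    lm a b c e x = (a * x.1 + b * x.2, c * x.1 + e * x.2) := rfl

theorem pf_A9 (h : T_A2) (hl : T_LM) : T_A9 := by
  intro X v e hX hc he hw
  rcases X.eq_empty_or_nonempty with hemp | hne
  · rw [hemp, Set.empty_add]
    linarith
  by_cases hv : v = 0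
  · have h1 : X + seg v = X := by
      have h2 : seg v = {0} := by
        ext x
        simp only [seg, Set.mem_ofPred_eq, Set.mem_singleton_iff]
        constructor
        · rintro ⟨t, _, _, rfl⟩
          rw [hv, smul_zero]
        · intro hx
          exact ⟨0, le_rfl, zero_le_one, by rw [hx, zero_smul]⟩
      rw [h2, Set.add_singleton]
      simp
    rw [h1]
    linarith
  · have hn : 0 < v.1 ^ 2 + v.2 ^ 2 := by
      rcases eq_or_ne v.1 0 with h1 | h1
      · rcases eq_or_ne v.2 0 with h2 | h2
        · exact absurd (Prod.ext h1 h2) hv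
        · have := sq_pos_of_ne_zero h2
          have := sq_nonneg v.1
          linarith
      · have := sq_pos_of_ne_zero h1
        have := sq_nonneg v.2
        linarith
    set n : ℝ := v.1 ^ 2 + v.2 ^ 2 with hndef
    have hdet : |v.1 / n * v.1 - v.2 / n * (-v.2)| = 1 := by
      have h1 : v.1 / n * v.1 - v.2 / n * (-v.2) = 1 := by
        field_simp
        rw [hndef]
        ring
      rw [h1, abs_one]
    have hA : ∀ Y : Set (ℝ × ℝ), ar (lm (v.1 / n) (v.2 / n) (-v.2) v.1 '' Y) = ar Y := by
      intro Y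
      have h1 := hl (v.1 / n) (v.2 / n) (-v.2) v.1 Y
      rw [hdet, one_mul] at h1
      exact h1
    obtain ⟨L, hL⟩ : ∃ L : (ℝ × ℝ) →ₗ[ℝ] (ℝ × ℝ), L = lm (v.1 / n) (v.2 / n) (-v.2) v.1 :=
      ⟨_, rfl⟩
    rw [← hL] at hA
    have hLx : ∀ x : ℝ × ℝ, (L x).2 = wd v x := by
      intro x
      rw [hL, lm_apply]
      simp only [wd]
      ring
    have hLv : L v = (1, 0) := by
      rw [hL, lm_apply]
      ext
      · show v.1 / n * v.1 + v.2 / n * v.2 = 1
        field_simp
        rw [hndef]
      · show -v.2 * v.1 + v.1 * v.2 = 0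
        ring
    have hseg : L '' seg v = hsg 0 1 0 := by
      ext x
      simp only [Set.mem_image, seg, hsg, Set.mem_ofPred_eq]
      constructor
      · rintro ⟨y, ⟨t, ht0, ht1, rfl⟩, rfl⟩
        rw [map_smul, hLv]
        simp only [Prod.smul_mk, smul_eq_mul, mul_one, mul_zero, and_true]
        exact ⟨ht0, by linarith⟩
      · rintro ⟨hx1, hx2, hx3⟩
        refine ⟨x.1 • v, ⟨x.1, hx1, by linarith, rfl⟩, ?_⟩
        rw [map_smul, hLv]
        ext
        · simp
        · simp [hx3]
    have hcont : Continuous L := L.continuous_of_finiteDimensional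
    have hLX : IsCompact (L '' X) := hX.image hcont
    have hLc : Convex ℝ (L '' X) := hc.linear_image L
    obtain ⟨z, hz, hzmin⟩ := hX.exists_isMinOn hne
      ((continuous_snd.comp hcont).continuousOn (s := X))
    have hb : ∀ x ∈ L '' X, (L z).2 ≤ x.2 ∧ x.2 ≤ (L z).2 + e := by
      rintro x ⟨y, hy, rfl⟩
      refine ⟨hzmin hy, ?_⟩
      have h1 := hw y hy z hz
      rw [hLx, hLx]
      linarith
    have h1 := h (L '' X) (L z).2 e 0 1 0 hLX hLc he zero_le_one hb
    rw [← hseg, ← Set.image_add, hA, hA, one_mul] at h1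
    exact h1

end Pool.Agent.H16.TSD
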